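import Pool.Agent.H91.QO.TargetsA

/-!
# Board quo_modules: row ABSO (the abstract inequality)
-/

set_option autoImplicit false

namespace Pool.Agent.H86.QO

open Finset Matrix
open Pool.Agent.H91.QO

/-- the traces of the products of positive semidefinite matrices -/
theorem cs {B : Type} [Fintype B] (S E P : B → ℝ) (Mx Z u : ℝ) (hMx : 0 ≤ Mx) (hZ : 0 ≤ Z)
    (hu : 0 ≤ u) (hS : ∀ b, 0 ≤ S b) (hE : ∀ b, 0 ≤ E b)
    (hP : ∀ b, -(Mx * (2 * Real.sqrt (S b * E b) + E b)) ≤ P b) (hSs : ∑ b, S b ≤ Z)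
    (hEs : ∑ b, E b ≤ Z * u ^ 2) : -(Mx * (Z * (2 * u + u ^ 2))) ≤ ∑ b, P b := by
  have h1 : ∑ b, Real.sqrt (S b * E b) ≤ Z * u := by
    calc ∑ b, Real.sqrt (S b * E b) = ∑ b, Real.sqrt (S b) * Real.sqrt (E b) :=
          Finset.sum_congr rfl fun b _ => Real.sqrt_mul (hS b) _
      _ ≤ Real.sqrt (∑ b, S b) * Real.sqrt (∑ b, E b) :=
          Real.sum_sqrt_mul_sqrt_le univ hS hE
      _ ≤ Real.sqrt Z * Real.sqrt (Z * u ^ 2) :=
          mul_le_mul (Real.sqrt_le_sqrt hSs) (Real.sqrt_le_sqrt hEs) (Real.sqrt_nonneg _)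
            (Real.sqrt_nonneg _)
      _ = Z * u := by
          rw [Real.sqrt_mul hZ, Real.sqrt_sq hu, ← mul_assoc, Real.mul_self_sqrt hZ]
  have h2 : ∑ b, (2 * Real.sqrt (S b * E b) + E b) ≤ Z * (2 * u + u ^ 2) := by
    rw [Finset.sum_add_distrib, ← Finset.mul_sum]
    linarith
  refine le_trans ?_ (Finset.sum_le_sum fun b _ => hP b)
  rw [Finset.sum_neg_distrib, ← Finset.mul_sum]
  exact neg_le_neg (mul_le_mul_of_nonneg_left h2 hMx)

/-- change of the order of summation -/
theorem swap {X Y : Type} [Fintype X] {M : ℕ} (A : Finset Y) (J : Y → Finset (Fin M))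
    (cell : Fin M → Set X) [∀ j, DecidablePred (· ∈ cell j)] (jj : Y → X → Fin M)
    (h1 : ∀ a ∈ A, ∀ x, jj a x ∈ J a ∧ x ∈ cell (jj a x))
    (h2 : ∀ a ∈ A, ∀ x j, j ∈ J a → x ∈ cell j → j = jj a x) (φ : Fin M → Y → X → ℝ) :
    ∑ j, ∑ a ∈ A.filter (fun a => j ∈ J a), ∑ x ∈ univ.filter (fun x => x ∈ cell j), φ j a x =
      ∑ a ∈ A, ∑ x, φ (jj a x) a x := by
  classical
  rw [Finset.sum_comm' (s' := fun a => J a) (t' := A) (by
    intro j a
    simp [and_comm])]
  refine Finset.sum_congr rfl fun a ha => ?_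
  simp only [Finset.sum_filter]
  rw [Finset.sum_comm]
  refine Finset.sum_congr rfl fun x _ => ?_
  rw [Finset.sum_eq_single (jj a x)]
  · rw [if_pos (h1 a ha x).2]
  · intro j hj hne
    rw [if_neg]
    intro hx
    exact hne (h2 a ha x j hj hx)
  · intro h
    exact absurd (h1 a ha x).1 h

/-- inner sum over the clauses or the constraints which are used -/
theorem inner {Y ι X : Type} {M : ℕ} [Fintype ι] [DecidableEq ι] (A : Finset Y)
    (J : Y → Finset (Fin M)) (F : Y → Finset ι) (Xj : Finset X) (j : Fin M)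
    (φ : ι → Y → X → ℝ) :
    ∑ i, ∑ a ∈ A.filter (fun a => j ∈ J a ∧ i ∈ F a), ∑ x ∈ Xj, φ i a x =
      ∑ a ∈ A.filter (fun a => j ∈ J a), ∑ x ∈ Xj, ∑ i ∈ F a, φ i a x := by
  rw [Finset.sum_comm' (s' := fun a => F a) (t' := A.filter (fun a => j ∈ J a)) (by
    intro i a
    simp only [Finset.mem_univ, Finset.mem_filter, true_and]
    tauto)]
  refine Finset.sum_congr rfl fun a _ => ?_
  rw [Finset.sum_comm]

theorem pf_ABSO : S_ABSO := by
  classical
  intro X Y C _ _ _ _ K kb Mx θ W th F sat hkb hMx hθ hKM hK1 hKv hpsd M A J cell nb o I G L lam0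
    ls de T hde hth hcov hdis hG hL hLI hlam hls1 hls0 hid hT hW hθW hA0
  obtain ⟨a0, ha0⟩ := Finset.card_pos.1 hA0
  obtain ⟨x0⟩ := (inferInstance : Nonempty X)
  obtain ⟨j0, hj0, -⟩ := hcov a0 ha0 x0
  have hcov' : ∀ a x, ∃ j, a ∈ A → j ∈ J a ∧ x ∈ cell j := by
    intro a x
    by_cases ha : a ∈ A
    · obtain ⟨j, h1, h2⟩ := hcov a ha x
      exact ⟨j, fun _ => ⟨h1, h2⟩⟩
    · exact ⟨j0, fun h => absurd h ha⟩
  choose jj hjj' using hcov'
  have hjj : ∀ a ∈ A, ∀ x, jj a x ∈ J a ∧ x ∈ cell (jj a x) := fun a ha x => hjj' a x ha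
  have huni : ∀ a ∈ A, ∀ x j, j ∈ J a → x ∈ cell j → j = jj a x := by
    intro a ha x j h1 h2
    by_contra h3
    exact Set.disjoint_left.1 (hdis a ha j h1 (jj a x) (hjj a ha x).1 h3) h2 (hjj a ha x).2
  obtain ⟨c, hc⟩ : ∃ c : ℝ, c = (Fintype.card C : ℝ) := ⟨_, rfl⟩
  have hc0 : 0 ≤ c := by rw [hc]; positivity
  have hm : (0 : ℝ) < c + 1 := by linarith
  have hAc : (0 : ℝ) < A.card := by exact_mod_cast hA0
  have hXc : (0 : ℝ) < Fintype.card X := by exact_mod_cast Fintype.card_pos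
  have hMx0 : (0 : ℝ) < Mx := by linarith
  -- orders
  have hWj : ∀ j : Fin M, ∑ i, (o j i : ℝ) + 1 ≤ W := by
    intro j
    refine le_trans ?_ hW
    exact Finset.single_le_sum (f := fun j => ∑ i, (o j i : ℝ) + 1)
      (fun j _ => by positivity) (Finset.mem_univ j)
  have hW1 : (1 : ℝ) ≤ W := by
    refine le_trans ?_ (hWj j0)
    have : (0 : ℝ) ≤ ∑ i, (o j0 i : ℝ) := by positivity
    linarith
  have hWi : ∀ (j : Fin M) (i : Fin (nb j)), (o j i : ℝ) ≤ W := by
    intro j i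
    refine le_trans ?_ (hWj j)
    have := Finset.single_le_sum (f := fun i => (o j i : ℝ)) (fun i _ => by positivity)
      (Finset.mem_univ i)
    linarith
  have hT1 : (1 : ℝ) ≤ T := by
    refine le_trans ?_ (hT a0 ha0)
    refine le_trans ?_ (Finset.single_le_sum
      (f := fun j => ∑ i ∈ I a0 j, (o j i : ℝ) + 1) (fun j _ => by positivity) hj0)
    have : (0 : ℝ) ≤ ∑ i ∈ I a0 j0, (o j0 i : ℝ) := by positivity
    linarith
  -- the clause part
  obtain ⟨w, hw⟩ : ∃ w : Fin M → C → X → ℝ, ∀ j cl x, w j cl x =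
      if x ∈ cell j then (if sat cl x then 0 else 1) - ls j cl x else 0 := ⟨_, fun _ _ _ => rfl⟩
  have hw0 : ∀ j cl x, 0 ≤ w j cl x := by
    intro j cl x
    rw [hw]
    split_ifs with h1 h2
    · have := hls0 j cl x h1 h2
      linarith
    · have := hls1 j cl x h1
      linarith
    · exact le_refl _
  obtain ⟨G', hG'⟩ : ∃ G' : (j : Fin M) → (i : Fin (nb j)) → X →
      Matrix (Fin (o j i)) (Fin (o j i)) ℝ,
      ∀ j i x, G' j i x = if x ∈ cell j then G j x i else 0 := ⟨_, fun _ _ _ => rfl⟩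
  have hG'1 : ∀ j i x, (G' j i x).PosSemidef := by
    intro j i x
    rw [hG']
    split_ifs with h
    · exact hG j x h i
    · exact Matrix.PosSemidef.zero
  have htr : ∀ a j i x, 0 ≤ (L a j i * G' j i x).trace := fun a j i x =>
    Pool.Agent.H49.SDP.trace_mul_nonneg (hL a j i) (hG'1 j i x)
  obtain ⟨tot, htot⟩ : ∃ tot : Fin M → Y → X → ℝ, ∀ j a x, tot j a x =
      ∑ i ∈ I a j, (L a j i * G' j i x).trace + lam0 a j + ∑ cl ∈ F a, w j cl x :=
    ⟨_, fun _ _ _ => rfl⟩
  obtain ⟨v, hv⟩ : ∃ v : Y → X → ℝ, ∀ a x, v a x =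
      (((F a).filter (fun cl => ¬ sat cl x)).card : ℝ) := ⟨_, fun _ _ => rfl⟩
  have hvc : ∀ a x, v a x ≤ c := by
    intro a x
    rw [hv, hc]
    exact_mod_cast (Finset.card_le_univ _)
  have htid : ∀ a ∈ A, ∀ x, |tot (jj a x) a x - (v a x - de)| ≤ de / (4 * Mx) := by
    intro a ha x
    obtain ⟨hj, hx⟩ := hjj a ha x
    have h1 := hid a ha (jj a x) hj x hx
    have h2 : ∑ i ∈ I a (jj a x), (L a (jj a x) i * G' (jj a x) i x).trace =
        ∑ i, (L a (jj a x) i * G (jj a x) x i).trace := by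
      rw [← Finset.sum_subset (Finset.subset_univ (I a (jj a x)))]
      · refine Finset.sum_congr rfl fun i _ => ?_
        rw [hG', if_pos hx]
      · intro i _ hi
        rw [hLI a _ i hi, Matrix.zero_mul, Matrix.trace_zero]
    have h3 : ∑ cl ∈ F a, w (jj a x) cl x = v a x - ∑ cl ∈ F a, ls (jj a x) cl x := by
      rw [hv, Finset.card_filter, Nat.cast_sum, ← Finset.sum_sub_distrib]
      refine Finset.sum_congr rfl fun cl _ => ?_
      rw [hw, if_pos hx]
      by_cases hs : sat cl x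
      · simp [hs]
      · simp [hs]
    rw [htot, h2, h3, ← abs_neg]
    refine le_trans (le_of_eq ?_) h1
    congr 1
    ring
  have hη : de / (4 * Mx) ≤ de / 4 := by
    apply div_le_div_of_nonneg_left hde.le (by norm_num)
    linarith
  have htot1 : ∀ a ∈ A, ∀ x, tot (jj a x) a x ≤ c - 3 / 4 * de := by
    intro a ha x
    have h1 := (abs_le.1 (htid a ha x)).2
    have h2 := hvc a x
    linarith
  have htot0 : ∀ a j x, 0 ≤ tot j a x := by
    intro a j x
    rw [htot]
    have h1 : 0 ≤ ∑ i ∈ I a j, (L a j i * G' j i x).trace := Finset.sum_nonneg fun i _ => htr a j i x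
    have h2 : 0 ≤ ∑ cl ∈ F a, w j cl x := Finset.sum_nonneg fun cl _ => hw0 j cl x
    have h3 := hlam a j
    linarith
  have hdc : 3 / 4 * de ≤ c := by
    have h1 := htot1 a0 ha0 x0
    have h2 := htot0 a0 (jj a0 x0) x0
    linarith
  have hparts : ∀ a ∈ A, ∀ j ∈ J a, ∀ x ∈ cell j,
      (∀ i ∈ I a j, (L a j i * G' j i x).trace ≤ c + 1) ∧ lam0 a j ≤ c + 1 ∧
        ∀ cl ∈ F a, w j cl x ≤ c + 1 := by
    intro a ha j hj x hx
    have hjx := huni a ha x j hj hx
    subst hjx
    have h0 := htot1 a ha x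
    rw [htot] at h0
    have h1 : 0 ≤ ∑ i ∈ I a (jj a x), (L a (jj a x) i * G' (jj a x) i x).trace :=
      Finset.sum_nonneg fun i _ => htr a _ i x
    have h2 : 0 ≤ ∑ cl ∈ F a, w (jj a x) cl x := Finset.sum_nonneg fun cl _ => hw0 _ cl x
    have h3 := hlam a (jj a x)
    refine ⟨fun i hi => ?_, ?_, fun cl hcl => ?_⟩
    · have := Finset.single_le_sum (f := fun i => (L a (jj a x) i * G' (jj a x) i x).trace)
        (fun i _ => htr a _ i x) hi
      linarith
    · linarith
    · have := Finset.single_le_sum (f := fun cl => w (jj a x) cl x) (fun cl _ => hw0 _ cl x) hcl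
      linarith
  -- the blocks
  obtain ⟨Xj, hXj⟩ : ∃ Xj : Fin M → Finset X, ∀ j, Xj j = univ.filter (fun x => x ∈ cell j) :=
    ⟨_, fun _ => rfl⟩
  have hXm : ∀ j x, x ∈ Xj j → x ∈ cell j := by
    intro j x hx
    rw [hXj] at hx
    exact (Finset.mem_filter.1 hx).2
  obtain ⟨A1, hA1⟩ : ∃ A1 : (p : Σ j : Fin M, Fin (nb j)) → Finset Y, ∀ p, A1 p =
      A.filter (fun a => p.1 ∈ J a ∧ p.2 ∈ I a p.1) := ⟨_, fun _ => rfl⟩
  obtain ⟨A2, hA2⟩ : ∃ A2 : Fin M → Finset Y, ∀ j, A2 j = A.filter (fun a => j ∈ J a) :=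
    ⟨_, fun _ => rfl⟩
  obtain ⟨A3, hA3⟩ : ∃ A3 : Fin M × C → Finset Y, ∀ p, A3 p =
      A.filter (fun a => p.1 ∈ J a ∧ p.2 ∈ F a) := ⟨_, fun _ => rfl⟩
  -- order one
  have hone : ∀ (f : Y → ℝ) (g : X → ℝ), (∀ a, 0 ≤ f a) → (∀ x, 0 ≤ g x) →
      ∀ (A' : Finset Y) (X' : Finset X), (∀ a ∈ A', ∀ x ∈ X', f a * g x ≤ c + 1) →
      -(Mx * (2 * Real.sqrt ((∑ a ∈ A', ∑ x ∈ X', f a * g x) *
        (kb * (c + 1) * 1 * (A'.card + θ) * Fintype.card X)) +
        kb * (c + 1) * 1 * (A'.card + θ) * Fintype.card X)) ≤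
        ∑ a ∈ A', ∑ x ∈ X', K a x * (f a * g x) := by
    intro f g hf hg A' X' hfg
    have htr1 : ∀ a x, ((f a • (1 : Matrix (Fin 1) (Fin 1) ℝ)) *
        (g x • (1 : Matrix (Fin 1) (Fin 1) ℝ))).trace = f a * g x := by
      intro a x
      rw [Matrix.smul_mul, Matrix.mul_smul, Matrix.one_mul, Matrix.trace_smul, Matrix.trace_smul,
        Matrix.trace_one, Fintype.card_fin]
      simp
    have h := hpsd 1 (fun a => f a • (1 : Matrix (Fin 1) (Fin 1) ℝ))
      (fun x => g x • (1 : Matrix (Fin 1) (Fin 1) ℝ)) (by simpa using hW1)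
      (fun a => PosSemidef.one.smul (hf a)) (fun x => PosSemidef.one.smul (hg x)) A' X' (c + 1) hm
      (fun a ha x hx => by
        rw [htr1]
        exact hfg a ha x hx)
    simp only [htr1, Nat.cast_one] at h
    exact h
  obtain ⟨u, hu⟩ : ∃ u : ℝ, u = Real.sqrt (kb * (c + 1) * (T + 1)) := ⟨_, rfl⟩
  have hu0 : 0 ≤ u := by rw [hu]; exact Real.sqrt_nonneg _
  have hu2 : u ^ 2 = kb * (c + 1) * (T + 1) := by
    rw [hu]
    exact Real.sq_sqrt (by positivity)
  obtain ⟨Z, hZ⟩ : ∃ Z : ℝ, Z = (c + 1) * (A.card * Fintype.card X) := ⟨_, rfl⟩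
  have hZ0 : 0 < Z := by rw [hZ]; positivity
  -- change of the order of summation
  have hsw : ∀ κ : Y → X → ℝ,
      ∑ p : Σ j : Fin M, Fin (nb j), ∑ a ∈ A1 p, ∑ x ∈ Xj p.1,
        κ a x * (L a p.1 p.2 * G' p.1 p.2 x).trace +
      (∑ j, ∑ a ∈ A2 j, ∑ x ∈ Xj j, κ a x * (lam0 a j * 1) +
      ∑ p : Fin M × C, ∑ a ∈ A3 p, ∑ x ∈ Xj p.1, κ a x * (1 * w p.1 p.2 x)) =
      ∑ a ∈ A, ∑ x, κ a x * tot (jj a x) a x := by
    intro κ
    rw [Fintype.sum_sigma, Fintype.sum_prod_type, ← Finset.sum_add_distrib,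
      ← Finset.sum_add_distrib, ← swap A J cell jj hjj huni (fun j a x => κ a x * tot j a x)]
    refine Finset.sum_congr rfl fun j _ => ?_
    simp only [hA1, hA2, hA3, hXj]
    rw [inner A J (fun a => I a j) (univ.filter (fun x => x ∈ cell j)) j
      (fun i a x => κ a x * (L a j i * G' j i x).trace),
      inner A J F (univ.filter (fun x => x ∈ cell j)) j (fun cl a x => κ a x * (1 * w j cl x)),
      ← Finset.sum_add_distrib, ← Finset.sum_add_distrib]
    refine Finset.sum_congr rfl fun a _ => ?_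
    rw [← Finset.sum_add_distrib, ← Finset.sum_add_distrib]
    refine Finset.sum_congr rfl fun x _ => ?_
    rw [htot, ← Finset.mul_sum, ← Finset.mul_sum, mul_one]
    simp only [one_mul]
    ring
  -- the lower bound
  have hlow : -(Mx * (Z * (2 * u + u ^ 2))) ≤ ∑ a ∈ A, ∑ x, K a x * tot (jj a x) a x := by
    have hcs := cs (B := (Σ j : Fin M, Fin (nb j)) ⊕ (Fin M ⊕ Fin M × C))
      (Sum.elim (fun p => ∑ a ∈ A1 p, ∑ x ∈ Xj p.1, (L a p.1 p.2 * G' p.1 p.2 x).trace)
        (Sum.elim (fun j => ∑ a ∈ A2 j, ∑ x ∈ Xj j, lam0 a j * 1)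
          (fun p => ∑ a ∈ A3 p, ∑ x ∈ Xj p.1, 1 * w p.1 p.2 x)))
      (Sum.elim (fun p => kb * (c + 1) * o p.1 p.2 * ((A1 p).card + θ) * Fintype.card X)
        (Sum.elim (fun j => kb * (c + 1) * 1 * ((A2 j).card + θ) * Fintype.card X)
          (fun p => kb * (c + 1) * 1 * ((A3 p).card + θ) * Fintype.card X)))
      (Sum.elim (fun p => ∑ a ∈ A1 p, ∑ x ∈ Xj p.1,
          K a x * (L a p.1 p.2 * G' p.1 p.2 x).trace)
        (Sum.elim (fun j => ∑ a ∈ A2 j, ∑ x ∈ Xj j, K a x * (lam0 a j * 1))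
          (fun p => ∑ a ∈ A3 p, ∑ x ∈ Xj p.1, K a x * (1 * w p.1 p.2 x))))
      Mx Z u hMx0.le hZ0.le hu0 ?_ ?_ ?_ ?_ ?_
    · rw [Fintype.sum_sum_type, Fintype.sum_sum_type] at hcs
      simp only [Sum.elim_inl, Sum.elim_inr] at hcs
      rw [hsw K] at hcs
      exact hcs
    · rintro (p | j | p)
      · exact Finset.sum_nonneg fun a _ => Finset.sum_nonneg fun x _ => htr a p.1 p.2 x
      · exact Finset.sum_nonneg fun a _ => Finset.sum_nonneg fun x _ =>
          mul_nonneg (hlam a j) zero_le_one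
      · exact Finset.sum_nonneg fun a _ => Finset.sum_nonneg fun x _ =>
          mul_nonneg zero_le_one (hw0 p.1 p.2 x)
    · rintro (p | j | p)
      · show (0 : ℝ) ≤ kb * (c + 1) * o p.1 p.2 * ((A1 p).card + θ) * Fintype.card X
        positivity
      · show (0 : ℝ) ≤ kb * (c + 1) * 1 * ((A2 j).card + θ) * Fintype.card X
        positivity
      · show (0 : ℝ) ≤ kb * (c + 1) * 1 * ((A3 p).card + θ) * Fintype.card X
        positivity
    · rintro (p | j | p)
      · exact hpsd (o p.1 p.2) (fun a => L a p.1 p.2) (G' p.1 p.2) (hWi p.1 p.2)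
          (fun a => hL a p.1 p.2) (hG'1 p.1 p.2) (A1 p) (Xj p.1) (c + 1) hm
          (fun a ha x hx => by
            rw [hA1] at ha
            obtain ⟨h1, h2, h3⟩ := Finset.mem_filter.1 ha
            exact (hparts a h1 p.1 h2 x (hXm _ _ hx)).1 p.2 h3)
      · exact hone (fun a => lam0 a j) (fun _ => 1) (fun a => hlam a j) (fun _ => zero_le_one)
          (A2 j) (Xj j) (fun a ha x hx => by
            rw [hA2] at ha
            obtain ⟨h1, h2⟩ := Finset.mem_filter.1 ha
            rw [mul_one]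
            exact (hparts a h1 j h2 x (hXm _ _ hx)).2.1)
      · exact hone (fun _ => 1) (fun x => w p.1 p.2 x) (fun _ => zero_le_one)
          (fun x => hw0 p.1 p.2 x) (A3 p) (Xj p.1) (fun a ha x hx => by
            rw [hA3] at ha
            obtain ⟨h1, h2, h3⟩ := Finset.mem_filter.1 ha
            rw [one_mul]
            exact (hparts a h1 p.1 h2 x (hXm _ _ hx)).2.2 p.2 h3)
    · rw [Fintype.sum_sum_type, Fintype.sum_sum_type]
      simp only [Sum.elim_inl, Sum.elim_inr]
      have h1 := hsw (fun _ _ => 1)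
      simp only [one_mul] at h1 ⊢
      rw [h1, hZ]
      calc ∑ a ∈ A, ∑ x, tot (jj a x) a x ≤ ∑ a ∈ A, ∑ x : X, (c + 1) :=
            Finset.sum_le_sum fun a ha => Finset.sum_le_sum fun x _ => by
              have := htot1 a ha x
              linarith
        _ = (c + 1) * (A.card * Fintype.card X) := by
            rw [Finset.sum_const, Finset.sum_const, Finset.card_univ, nsmul_eq_mul, nsmul_eq_mul]
            ring
    · rw [Fintype.sum_sum_type, Fintype.sum_sum_type]
      simp only [Sum.elim_inl, Sum.elim_inr]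
      have e1 : ∑ p : Σ j : Fin M, Fin (nb j), (o p.1 p.2 : ℝ) * (A1 p).card =
          ∑ a ∈ A, ∑ j ∈ J a, ∑ i ∈ I a j, (o j i : ℝ) := by
        rw [Fintype.sum_sigma]
        rw [Finset.sum_comm' (s := A) (t := fun a => J a)
          (s' := fun j => A.filter (fun a => j ∈ J a)) (t' := univ) (by
          intro a j
          simp)]
        refine Finset.sum_congr rfl fun j _ => ?_
        rw [Finset.sum_comm' (s := A.filter (fun a => j ∈ J a)) (t := fun a => I a j)
          (s' := fun i => A.filter (fun a => j ∈ J a ∧ i ∈ I a j)) (t' := univ) (by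
          intro a i
          simp only [Finset.mem_univ, Finset.mem_filter, and_true]
          tauto)]
        refine Finset.sum_congr rfl fun i _ => ?_
        rw [Finset.sum_const, nsmul_eq_mul, hA1, mul_comm]
      have e2 : ∑ j, ((A2 j).card : ℝ) = ∑ a ∈ A, ∑ j ∈ J a, (1 : ℝ) := by
        rw [Finset.sum_comm' (s := A) (t := fun a => J a)
          (s' := fun j => A.filter (fun a => j ∈ J a)) (t' := univ) (by
          intro a j
          simp)]
        refine Finset.sum_congr rfl fun j _ => ?_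
        rw [Finset.sum_const, nsmul_eq_mul, hA2, mul_one]
      have e3 : ∑ p : Fin M × C, ((A3 p).card : ℝ) ≤ c * ∑ a ∈ A, ∑ j ∈ J a, (1 : ℝ) := by
        rw [← e2, Fintype.sum_prod_type, Finset.mul_sum]
        refine Finset.sum_le_sum fun j _ => ?_
        calc ∑ cl, ((A3 (j, cl)).card : ℝ) ≤ ∑ cl : C, ((A2 j).card : ℝ) := by
              refine Finset.sum_le_sum fun cl _ => ?_
              rw [hA3, hA2]
              have hsub : A.filter (fun a => (j, cl).1 ∈ J a ∧ (j, cl).2 ∈ F a) ⊆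
                  A.filter (fun a => j ∈ J a) := by
                intro a ha
                obtain ⟨h1, h2, -⟩ := Finset.mem_filter.1 ha
                exact Finset.mem_filter.2 ⟨h1, h2⟩
              exact_mod_cast Finset.card_le_card hsub
          _ = c * (A2 j).card := by
              rw [Finset.sum_const, Finset.card_univ, nsmul_eq_mul, hc]
      have e4 : ∑ a ∈ A, ∑ j ∈ J a, ∑ i ∈ I a j, (o j i : ℝ) + ∑ a ∈ A, ∑ j ∈ J a, (1 : ℝ) ≤
          A.card * T := by
        rw [← Finset.sum_add_distrib]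
        calc ∑ a ∈ A, (∑ j ∈ J a, ∑ i ∈ I a j, (o j i : ℝ) + ∑ j ∈ J a, (1 : ℝ)) ≤
            ∑ a ∈ A, T := by
              refine Finset.sum_le_sum fun a ha => ?_
              rw [← Finset.sum_add_distrib]
              exact hT a ha
          _ = A.card * T := by rw [Finset.sum_const, nsmul_eq_mul]
      have e5 : ∑ p : Σ j : Fin M, Fin (nb j), (o p.1 p.2 : ℝ) + (M : ℝ) ≤ W := by
        refine le_trans (le_of_eq ?_) hW
        rw [Fintype.sum_sigma, Finset.sum_add_distrib]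
        simp
      have e6 : ∑ p : Σ j : Fin M, Fin (nb j),
            kb * (c + 1) * o p.1 p.2 * ((A1 p).card + θ) * Fintype.card X +
          (∑ j : Fin M, kb * (c + 1) * 1 * ((A2 j).card + θ) * Fintype.card X +
            ∑ p : Fin M × C, kb * (c + 1) * 1 * ((A3 p).card + θ) * Fintype.card X) =
          kb * (c + 1) * Fintype.card X * ((∑ p : Σ j : Fin M, Fin (nb j),
            (o p.1 p.2 : ℝ) * (A1 p).card + ∑ j, ((A2 j).card : ℝ) +
              ∑ p : Fin M × C, ((A3 p).card : ℝ)) +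
            θ * (∑ p : Σ j : Fin M, Fin (nb j), (o p.1 p.2 : ℝ) + (M : ℝ) + M * c)) := by
        have s1 : ∑ p : Σ j : Fin M, Fin (nb j),
            kb * (c + 1) * o p.1 p.2 * ((A1 p).card + θ) * Fintype.card X =
            kb * (c + 1) * Fintype.card X * (∑ p : Σ j : Fin M, Fin (nb j),
            (o p.1 p.2 : ℝ) * (A1 p).card + θ * ∑ p : Σ j : Fin M, Fin (nb j),
            (o p.1 p.2 : ℝ)) := by
          rw [Finset.mul_sum (a := θ), ← Finset.sum_add_distrib, Finset.mul_sum]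
          exact Finset.sum_congr rfl fun p _ => by ring
        have s2 : ∑ j : Fin M, kb * (c + 1) * 1 * ((A2 j).card + θ) * Fintype.card X =
            kb * (c + 1) * Fintype.card X * (∑ j, ((A2 j).card : ℝ) + θ * M) := by
          have : ∑ j : Fin M, kb * (c + 1) * 1 * ((A2 j).card + θ) * Fintype.card X =
              ∑ j : Fin M, kb * (c + 1) * Fintype.card X * ((A2 j).card + θ) :=
            Finset.sum_congr rfl fun p _ => by ring
          rw [this, ← Finset.mul_sum, Finset.sum_add_distrib, Finset.sum_const, Finset.card_univ,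
            Fintype.card_fin, nsmul_eq_mul, mul_comm (M : ℝ) θ]
        have s3 : ∑ p : Fin M × C, kb * (c + 1) * 1 * ((A3 p).card + θ) * Fintype.card X =
            kb * (c + 1) * Fintype.card X * (∑ p : Fin M × C, ((A3 p).card : ℝ) +
              θ * (M * c)) := by
          have : ∑ p : Fin M × C, kb * (c + 1) * 1 * ((A3 p).card + θ) * Fintype.card X =
              ∑ p : Fin M × C, kb * (c + 1) * Fintype.card X * ((A3 p).card + θ) :=
            Finset.sum_congr rfl fun p _ => by ring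
          rw [this, ← Finset.mul_sum, Finset.sum_add_distrib, Finset.sum_const, Finset.card_univ,
            Fintype.card_prod, Fintype.card_fin, nsmul_eq_mul, hc]
          push_cast
          ring
        rw [s1, s2, s3]
        ring
      rw [e6, e1, e2, hZ, hu2]
      obtain ⟨a1, ha1⟩ : ∃ a1 : ℝ, a1 = ∑ a ∈ A, ∑ j ∈ J a, ∑ i ∈ I a j, (o j i : ℝ) := ⟨_, rfl⟩
      obtain ⟨a2, ha2⟩ : ∃ a2 : ℝ, a2 = ∑ a ∈ A, ∑ j ∈ J a, (1 : ℝ) := ⟨_, rfl⟩
      obtain ⟨a3, ha3⟩ : ∃ a3 : ℝ, a3 = ∑ p : Fin M × C, ((A3 p).card : ℝ) := ⟨_, rfl⟩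
      obtain ⟨a4, ha4⟩ : ∃ a4 : ℝ, a4 = ∑ p : Σ j : Fin M, Fin (nb j), (o p.1 p.2 : ℝ) :=
        ⟨_, rfl⟩
      have ha10 : 0 ≤ a1 := by rw [ha1]; positivity
      have ha40 : 0 ≤ a4 := by rw [ha4]; positivity
      rw [← ha1, ← ha2, ← ha3, ← ha4]
      rw [← ha2, ← ha3] at e3
      rw [← ha1, ← ha2] at e4
      rw [← ha4] at e5
      have t1 : a1 + a2 + a3 ≤ (c + 1) * (A.card * T) := by
        have : (c + 1) * (a1 + a2) ≤ (c + 1) * (A.card * T) :=
          mul_le_mul_of_nonneg_left e4 hm.le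
        have t2 : 0 ≤ c * a1 := mul_nonneg hc0 ha10
        linarith
      have t3 : θ * (a4 + M + M * c) ≤ (c + 1) * A.card := by
        have t4 : a4 + M + M * c ≤ (c + 1) * W := by
          have : (c + 1) * (a4 + M) ≤ (c + 1) * W := mul_le_mul_of_nonneg_left e5 hm.le
          have t2 : 0 ≤ c * a4 := mul_nonneg hc0 ha40
          linarith
        calc θ * (a4 + M + M * c) ≤ θ * ((c + 1) * W) := mul_le_mul_of_nonneg_left t4 hθ.le
          _ = (c + 1) * (θ * W) := by ring
          _ ≤ (c + 1) * A.card := mul_le_mul_of_nonneg_left hθW hm.le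
      calc kb * (c + 1) * Fintype.card X * ((a1 + a2 + a3) + θ * (a4 + M + M * c)) ≤
          kb * (c + 1) * Fintype.card X * ((c + 1) * (A.card * T) + (c + 1) * A.card) :=
            mul_le_mul_of_nonneg_left (add_le_add t1 t3) (by positivity)
        _ = _ := by ring
  -- the upper bound
  have hup : ∑ a ∈ A, ∑ x, K a x * tot (jj a x) a x ≤ -(de / 2 * (A.card * Fintype.card X)) := by
    have h1 : ∀ a ∈ A, ∑ x, K a x * tot (jj a x) a x ≤ -(de / 2 * Fintype.card X) := by
      intro a ha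
      have h2 : ∀ x, K a x * tot (jj a x) a x ≤ K a x * v a x - K a x * de + de / 4 := by
        intro x
        have h3 := htid a ha x
        have h4 : |K a x * (tot (jj a x) a x - (v a x - de))| ≤ de / 4 := by
          rw [abs_mul]
          calc |K a x| * |tot (jj a x) a x - (v a x - de)| ≤ Mx * (de / (4 * Mx)) :=
                mul_le_mul (hKM a x) h3 (abs_nonneg _) hMx0.le
            _ = de / 4 := by field_simp
        have h5 := (abs_le.1 h4).2
        nlinarith
      have h6 := Finset.sum_le_sum fun x (_ : x ∈ univ) => h2 x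
      rw [Finset.sum_add_distrib, Finset.sum_sub_distrib, ← Finset.sum_mul, hK1 a,
        Finset.sum_const, Finset.card_univ, nsmul_eq_mul] at h6
      have h7 : ∑ x, K a x * v a x ≤ th * Fintype.card X := by
        refine le_trans (le_of_eq ?_) (hKv a)
        refine Finset.sum_congr rfl fun x _ => ?_
        rw [hv]
      have h8 : th * Fintype.card X ≤ de / 4 * Fintype.card X :=
        mul_le_mul_of_nonneg_right hth hXc.le
      linarith
    refine (Finset.sum_le_sum h1).trans (le_of_eq ?_)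
    rw [Finset.sum_const, nsmul_eq_mul]
    ring
  have hmain : de / 2 ≤ Mx * (c + 1) * (2 * u + u ^ 2) := by
    have h1 := hlow.trans hup
    rw [hZ] at h1
    have h2 : (A.card * Fintype.card X : ℝ) * (de / 2) ≤
        (A.card * Fintype.card X) * (Mx * (c + 1) * (2 * u + u ^ 2)) := by
      have e : (A.card * Fintype.card X : ℝ) * (Mx * (c + 1) * (2 * u + u ^ 2)) =
          Mx * ((c + 1) * (A.card * Fintype.card X) * (2 * u + u ^ 2)) := by ring
      rw [e]
      linarith
    exact le_of_mul_le_mul_left h2 (by positivity)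
  have hfin : de ≤ 6 * Mx * (c + 1) * u := by
    rcases le_total u 1 with h1 | h1
    · have h2 : u ^ 2 ≤ u := by nlinarith
      have h3 : Mx * (c + 1) * (2 * u + u ^ 2) ≤ Mx * (c + 1) * (3 * u) :=
        mul_le_mul_of_nonneg_left (by linarith) (by positivity)
      linarith
    · have h2 : (c + 1) * 1 ≤ (c + 1) * (Mx * u) := by
        refine mul_le_mul_of_nonneg_left ?_ hm.le
        nlinarith
      have h3 : 0 ≤ (c + 1) * (Mx * u) := by positivity
      linarith
  rw [← hc]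
  calc de ^ 2 ≤ (6 * Mx * (c + 1) * u) ^ 2 := pow_le_pow_left₀ hde.le hfin 2
    _ = 36 * Mx ^ 2 * (c + 1) ^ 2 * u ^ 2 := by ring
    _ = 36 * Mx ^ 2 * (c + 1) ^ 3 * kb * (T + 1) := by rw [hu2]; ring

end Pool.Agent.H86.QO
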